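import Mathlib
import Pool.Agent.H.MP_c09afc_pr.C
open MeasureTheory
namespace Pool.Agent.Results.MP_c09afc_pr.NotUnique
open Pool.Agent.H.MP_c09afc_pr

theorem result (d : ℕ) (hd : 3 ≤ d) (m : (Fin d → ℤ) → Equiv.Perm (Fin d × Bool))
    (hm : ∀ x, (m x).IsCycleOn Set.univ) (a : Fin d → ℤ) :
    ¬ ∃! μ : Measure ((Fin d → ℤ) → Fin d × Bool), Stat m a μ := by
  rintro ⟨μ, h1, h2⟩
  obtain ⟨ν, h3, h4⟩ := main hd m hm a μ h1
  exact h4 (h2 ν h3)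

end Pool.Agent.Results.MP_c09afc_pr.NotUnique
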